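import Pool.Agent.Lib.MP_0a5adf_nt.EXR.Base
import Pool.Agent.Lib.MP_0a5adf_nt.EXP.H29.Words

/-!
Module HEIGHTG.
-/

set_option autoImplicit false

namespace Pool.Agent.Lib.MP_0a5adf_nt.EXR.H29

open Finset Pool.Agent.Lib.MP_0a5adf_nt.EXP

theorem ones_wd_add (a b : ℕ) (x : ℤ) :
    ones (wd (a + b) x) = ones (wd a x) + ones (wd b (T^[a] x)) := by
  rw [EXP.H29.ones_wd, EXP.H29.ones_wd, EXP.H29.ones_wd, sum_range_add]
  congr 1
  refine sum_congr rfl fun t _ => ?_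
  rw [← Function.iterate_add_apply, Nat.add_comm t]

theorem num_ineq (c m t : ℕ) (hm : 14 * (c + 4) ≤ m) (ht : t ≤ 5 * m + 4) :
    (2 : ℤ) ^ (c + 1) * 3 ^ t ≤ 2 ^ t * 2 ^ (3 * m) := by
  have a0 : (2 : ℤ) ^ (c + 4) * 243 ^ m ≤ 256 ^ m := by
    have b1 : (2 : ℤ) ^ (c + 4) * 243 ^ (14 * (c + 4)) ≤ 256 ^ (14 * (c + 4)) := by
      rw [pow_mul, pow_mul, ← mul_pow]
      exact pow_le_pow_left₀ (by norm_num) (by norm_num) _
    have b2 : (243 : ℤ) ^ (m - 14 * (c + 4)) ≤ 256 ^ (m - 14 * (c + 4)) :=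
      pow_le_pow_left₀ (by norm_num) (by norm_num) _
    have e1 : (243 : ℤ) ^ m = 243 ^ (14 * (c + 4)) * 243 ^ (m - 14 * (c + 4)) := by
      rw [← pow_add]
      congr 1
      omega
    have e2 : (256 : ℤ) ^ m = 256 ^ (14 * (c + 4)) * 256 ^ (m - 14 * (c + 4)) := by
      rw [← pow_add]
      congr 1
      omega
    rw [e1, e2, ← mul_assoc]
    exact mul_le_mul b1 b2 (by positivity) (by positivity)
  have a1 : (2 : ℤ) ^ (c + 1) * 3 ^ (5 * m + 4) ≤ 2 ^ (8 * m + 4) := by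
    have e1 : (3 : ℤ) ^ (5 * m + 4) = 243 ^ m * 81 := by
      rw [pow_add, pow_mul]
      norm_num
    have e2 : (2 : ℤ) ^ (8 * m + 4) = 256 ^ m * 16 := by
      rw [pow_add, pow_mul]
      norm_num
    have e3 : (2 : ℤ) ^ (c + 4) = 2 ^ (c + 1) * 8 := by
      rw [show c + 4 = (c + 1) + 3 by ring, pow_add]
      norm_num
    rw [e1, e2]
    rw [e3] at a0
    have : (0 : ℤ) ≤ 2 ^ (c + 1) * 243 ^ m := by positivity
    linarith
  have a2 : (2 : ℤ) ^ (c + 1) * 3 ^ t * 3 ^ (5 * m + 4 - t) ≤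
      2 ^ t * 2 ^ (3 * m) * 3 ^ (5 * m + 4 - t) := by
    calc (2 : ℤ) ^ (c + 1) * 3 ^ t * 3 ^ (5 * m + 4 - t) = 2 ^ (c + 1) * 3 ^ (5 * m + 4) := by
          rw [mul_assoc, ← pow_add]
          congr 2
          omega
      _ ≤ 2 ^ (8 * m + 4) := a1
      _ = 2 ^ t * 2 ^ (3 * m) * 2 ^ (5 * m + 4 - t) := by
          rw [← pow_add, ← pow_add]
          congr 1
          omega
      _ ≤ 2 ^ t * 2 ^ (3 * m) * 3 ^ (5 * m + 4 - t) :=
          mul_le_mul_of_nonneg_left (pow_le_pow_left₀ (by norm_num) (by norm_num) _)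
            (by positivity)
  exact le_of_mul_le_mul_right a2 (by positivity)

theorem one_height (c m d e : ℕ) (x : ℤ) (hm : 14 * (c + 4) ≤ m) (he : e + d ≤ 5 * m + 4)
    (hx1 : |x| ≤ 2 ^ (3 * m + d + c)) (h2 : 2 ^ (3 * m) ≤ 2 ^ c * |T^[e + d] x|) :
    2 ^ e ≤ 2 ^ (2 * c + 1) * 3 ^ ones (wd (e + d) x) := by
  obtain ⟨h01, -, hbd, -⟩ := EXP.H29.words
  set k := e + d with hk
  set J := ones (wd k x) with hJ
  have h1 := h01 k x
  rw [← hJ] at h1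
  have h3 := (hbd k (wd k x))
  have hnum := num_ineq c m k hm he
  have h4 : (2 : ℤ) ^ k * |T^[k] x| ≤ 3 ^ J * |x| + 3 ^ k := by
    have : (2 : ℤ) ^ k * |T^[k] x| = |3 ^ J * x + rr (wd k x)| := by
      rw [← h1, abs_mul, abs_of_pos (show (0 : ℤ) < 2 ^ k by positivity)]
    rw [this]
    refine (abs_add_le _ _).trans ?_
    rw [abs_mul, abs_of_pos (show (0 : ℤ) < 3 ^ J by positivity), abs_of_nonneg h3.1]
    linarith [h3.2.1]
  have h5 : (2 : ℤ) ^ k * 2 ^ (3 * m) ≤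
      2 ^ (2 * c) * 3 ^ J * 2 ^ d * 2 ^ (3 * m) + 2 ^ c * 3 ^ k := by
    calc (2 : ℤ) ^ k * 2 ^ (3 * m) ≤ 2 ^ k * (2 ^ c * |T^[k] x|) :=
          mul_le_mul_of_nonneg_left h2 (by positivity)
      _ = 2 ^ c * (2 ^ k * |T^[k] x|) := by ring
      _ ≤ 2 ^ c * (3 ^ J * |x| + 3 ^ k) := mul_le_mul_of_nonneg_left h4 (by positivity)
      _ ≤ 2 ^ c * (3 ^ J * 2 ^ (3 * m + d + c) + 3 ^ k) := by
          refine mul_le_mul_of_nonneg_left ?_ (by positivity)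
          have := mul_le_mul_of_nonneg_left hx1 (show (0 : ℤ) ≤ 3 ^ J by positivity)
          linarith
      _ = 2 ^ (2 * c) * 3 ^ J * 2 ^ d * 2 ^ (3 * m) + 2 ^ c * 3 ^ k := by
          rw [pow_add, pow_add, mul_comm 2 c, pow_mul]
          ring
  have h6 : (2 : ℤ) ^ e * (2 ^ d * 2 ^ (3 * m)) ≤
      (2 ^ (2 * c + 1) * 3 ^ J) * (2 ^ d * 2 ^ (3 * m)) := by
    have e1 : (2 : ℤ) ^ (c + 1) * 3 ^ k = 2 * (2 ^ c * 3 ^ k) := by ring
    have e2 : ((2 : ℤ) ^ (2 * c + 1) * 3 ^ J) * (2 ^ d * 2 ^ (3 * m)) =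
        2 * (2 ^ (2 * c) * 3 ^ J * 2 ^ d * 2 ^ (3 * m)) := by ring
    have e3 : (2 : ℤ) ^ e * (2 ^ d * 2 ^ (3 * m)) = 2 ^ k * 2 ^ (3 * m) := by
      rw [hk, pow_add]
      ring
    rw [e1] at hnum
    rw [e2, e3]
    linarith
  have h7 := le_of_mul_le_mul_right h6 (by positivity)
  exact_mod_cast h7

theorem heightg : HeightGStatement := by
  intro c
  refine ⟨14 * (c + 4), fun m hm d hd x hx J0 J1 J2 J3 hJ0 hJ1 hJ2 hJ3 => ?_⟩
  obtain ⟨hx1, hx2⟩ := hx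
  have e0 : J0 = ones (wd (1 * m + d) x) := by
    rw [hJ0, one_mul]
  have e1 : J1 = ones (wd (2 * m + d) x) := by
    rw [hJ1, hJ0, show 2 * m + d = m + d + m by ring, ones_wd_add (m + d) m]
  have e2 : J2 = ones (wd (3 * m + d) x) := by
    rw [hJ2, e1, show 3 * m + d = 2 * m + d + m by ring, ones_wd_add (2 * m + d) m]
  have e3 : J3 = ones (wd (4 * m + d) x) := by
    rw [hJ3, e2, show 4 * m + d = 3 * m + d + m by ring, ones_wd_add (3 * m + d) m]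
  rw [e0, e1, e2, e3]
  refine ⟨?_, ?_, ?_, ?_⟩
  · have := one_height c m d (1 * m) x hm (by omega) hx1 (hx2 1 (by norm_num) (by norm_num))
    rwa [one_mul] at this ⊢
  · exact one_height c m d (2 * m) x hm (by omega) hx1 (hx2 2 (by norm_num) (by norm_num))
  · exact one_height c m d (3 * m) x hm (by omega) hx1 (hx2 3 (by norm_num) (by norm_num))
  · exact one_height c m d (4 * m) x hm (by omega) hx1 (hx2 4 (by norm_num) (by norm_num))

end Pool.Agent.Lib.MP_0a5adf_nt.EXR.H29
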