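import Pool.Agent.Lib.MP_0a5adf_nt.EXR.Base

/-!
Module LETTER.
-/

set_option autoImplicit false

namespace Pool.Agent.Lib.MP_0a5adf_nt.EXR.H29

open Finset Pool.Agent.Lib.MP_0a5adf_nt.EXP

theorem P4_eq (s : ℝ) (hs : 0 < s) :
    (1 + (1 - 2 * (s / (1 + s))) ^ 4) / 2 = (1 + 6 * s ^ 2 + s ^ 4) / (1 + s) ^ 4 := by
  have h : (1 + s) ≠ 0 := by positivity
  have e : 1 - 2 * (s / (1 + s)) = (1 - s) / (1 + s) := by
    field_simp
    ring
  rw [e, div_pow]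
  field_simp
  ring

theorem one_sub_eq (s : ℝ) (hs : 0 < s) : 1 - s / (1 + s) = 1 / (1 + s) := by
  have h : (1 + s) ≠ 0 := by positivity
  field_simp
  ring

theorem quad_ineq (y r : ℝ) (hy1 : 1 ≤ y) (hy : y ^ 3 ≤ 9) (hr0 : 0 ≤ r) (hr : r ^ 2 = 3) :
    (1 + 6 * (r * y) + 3 * y ^ 2) ≤ 2 * (1 + 6 * y + y ^ 2) := by
  have h1 : r ≤ 1.7321 := by
    by_contra h
    push Not at h
    nlinarith
  have h2 : y ≤ 2.081 := by
    by_contra h
    push Not at h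
    have : (2.081 : ℝ) ^ 3 < y ^ 3 := pow_lt_pow_left₀ h (by norm_num) (by norm_num)
    norm_num at this
    linarith
  have h3 : r * y ≤ 1.7321 * y := mul_le_mul_of_nonneg_right h1 (by linarith)
  nlinarith

theorem letter : LetterStatement := by
  intro lam a b h0 h1 ha hb
  set s : ℝ := (3 : ℝ) ^ lam with hs
  set u : ℝ := (3 : ℝ) ^ (lam + 1 / 4) with hu
  have hs0 : 0 < s := by positivity
  have hu0 : 0 < u := by positivity
  set z : ℝ := (16 : ℝ) ^ lam with hz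
  have hz0 : 0 < z := by positivity
  have e9 : (9 : ℝ) ^ lam = s ^ 2 := by
    rw [hs, ← Real.rpow_natCast, ← Real.rpow_mul (by norm_num), mul_comm, Real.rpow_mul (by norm_num)]
    norm_num
  have e81 : (81 : ℝ) ^ lam = s ^ 4 := by
    rw [hs, ← Real.rpow_natCast, ← Real.rpow_mul (by norm_num), mul_comm, Real.rpow_mul (by norm_num)]
    norm_num
  have hPsi : Psi lam = (1 + 6 * s ^ 2 + s ^ 4) / z := by
    rw [Psi, e9, e81]
  have e16 : (2 : ℝ) ^ (4 * lam) = z := by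
    rw [hz, Real.rpow_mul (by norm_num)]
    norm_num
  have e3s : (3 : ℝ) ^ (4 * lam) = s ^ 4 := by
    rw [← e81, Real.rpow_mul (by norm_num)]
    norm_num
  have eu : (3 : ℝ) ^ (4 * lam + 1) = u ^ 4 := by
    rw [hu, ← Real.rpow_natCast, ← Real.rpow_mul (by norm_num)]
    congr 1
    push_cast
    ring
  have e2u : (2 : ℝ) ^ (4 * lam + 1) = 2 * z := by
    rw [Real.rpow_add (by norm_num), Real.rpow_one, e16]
    ring
  -- `u ^ 2 = r * s ^ 2`, `r ^ 2 = 3`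
  obtain ⟨r, hr0, hr, hur⟩ : ∃ r : ℝ, 0 ≤ r ∧ r ^ 2 = 3 ∧ u ^ 2 = r * s ^ 2 := by
    refine ⟨√3, Real.sqrt_nonneg _, Real.sq_sqrt (by norm_num), ?_⟩
    rw [← e9, hu, ← Real.rpow_natCast, ← Real.rpow_mul (by norm_num), Real.sqrt_eq_rpow,
      show (9 : ℝ) = 3 ^ (2 : ℝ) by norm_num, ← Real.rpow_mul (by norm_num),
      ← Real.rpow_add (by norm_num)]
    congr 1
    push_cast
    ring
  have hu4 : u ^ 4 = 3 * s ^ 4 := by
    calc u ^ 4 = (u ^ 2) ^ 2 := by ring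
      _ = r ^ 2 * s ^ 4 := by
        rw [hur]
        ring
      _ = _ := by rw [hr]
  have hkey : 1 + 6 * u ^ 2 + u ^ 4 ≤ 2 * (1 + 6 * s ^ 2 + s ^ 4) := by
    have h2 := quad_ineq (s ^ 2) r ?_ ?_ hr0 hr
    · rw [hur, hu4]
      have : (s ^ 2) ^ 2 = s ^ 4 := by ring
      rw [this] at h2
      linarith
    · rw [← e9]
      exact Real.one_le_rpow (by norm_num) h0
    · rw [← e9, ← Real.rpow_natCast, ← Real.rpow_mul (by norm_num)]
      calc (9 : ℝ) ^ (lam * ((3 : ℕ) : ℝ)) ≤ (9 : ℝ) ^ (1 : ℝ) :=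
            Real.rpow_le_rpow_of_exponent_le (by norm_num) (by push_cast; linarith)
        _ = 9 := Real.rpow_one _
  have hdiv : (1 + 6 * u ^ 2 + u ^ 4) / (2 * z) ≤ (1 + 6 * s ^ 2 + s ^ 4) / z := by
    rw [div_le_div_iff₀ (by positivity) hz0]
    have := mul_le_mul_of_nonneg_right hkey hz0.le
    linarith
  have hdiv' : 0 ≤ 1 / (1 + u) ^ 4 := by positivity
  subst ha hb
  rw [P4_eq s hs0, P4_eq u hu0, one_sub_eq s hs0, one_sub_eq u hu0, hPsi]
  rw [Real.div_rpow (by norm_num) (by norm_num), Real.div_rpow (by norm_num) (by norm_num),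
    Real.div_rpow (by norm_num) (by norm_num), Real.div_rpow (by norm_num) (by norm_num),
    e16, e3s, eu, e2u, Real.one_rpow, Real.one_rpow]
  refine ⟨le_of_eq (by rw [div_pow]; ring), le_of_eq (by rw [div_pow]; ring), ?_, ?_⟩
  · calc (1 + 6 * u ^ 2 + u ^ 4) / (1 + u) ^ 4 * (1 / (2 * z))
        = (1 + 6 * u ^ 2 + u ^ 4) / (2 * z) * (1 / (1 + u) ^ 4) := by
          field_simp
      _ ≤ (1 + 6 * s ^ 2 + s ^ 4) / z * (1 / (1 + u) ^ 4) :=
          mul_le_mul_of_nonneg_right hdiv hdiv'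
      _ = _ := by rw [div_pow, one_pow]
  · calc (1 + 6 * u ^ 2 + u ^ 4) / (1 + u) ^ 4 * (u ^ 4 / (2 * z))
        = (1 + 6 * u ^ 2 + u ^ 4) / (2 * z) * (u ^ 4 / (1 + u) ^ 4) := by
          field_simp
      _ ≤ (1 + 6 * s ^ 2 + s ^ 4) / z * (u ^ 4 / (1 + u) ^ 4) :=
          mul_le_mul_of_nonneg_right hdiv (by positivity)
      _ = _ := by rw [div_pow]

end Pool.Agent.Lib.MP_0a5adf_nt.EXR.H29
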